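import Mathlib
import Pool.Agent.Y247.KB.Final

set_option autoImplicit false
open MeasureTheory Metric

namespace Pool.Agent.Results.MP_7d358c_an.EqualBalls

/-- The `k`-th eigenvalue of the Dirichlet Laplacian on the open set `Ω ⊆ ℝ^N`, counted with
multiplicity, given by the min-max formula over `k`-dimensional spaces of smooth functions with
compact support in `Ω`: the infimum of the real numbers `c` for which there is a `k`-dimensional
space `V` of such functions with `∫ |∇v|² ≤ c ∫ v²` for all `v ∈ V`. (For `k = 0` the value of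
this definition is `0`.) -/
noncomputable def dirichletEigenvalue (N k : ℕ) (Ω : Set (EuclideanSpace ℝ (Fin N))) : ℝ :=
  sInf {c : ℝ | ∃ V : Submodule ℝ (EuclideanSpace ℝ (Fin N) → ℝ),
    Module.finrank ℝ V = k ∧
    ∀ v ∈ V, ContDiff ℝ (⊤ : ℕ∞) v ∧ HasCompactSupport v ∧ tsupport v ⊆ Ω ∧
      ∫ x, ‖fderiv ℝ v x‖ ^ 2 ≤ c * ∫ x, v x ^ 2}

/-- `λ_k^*`: the infimum of the `k`-th Dirichlet eigenvalue over the open sets of volume `1`. -/
noncomputable def optimalEigenvalue (N k : ℕ) : ℝ :=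
  sInf {l : ℝ | ∃ Ω : Set (EuclideanSpace ℝ (Fin N)),
    IsOpen Ω ∧ volume Ω = 1 ∧ l = dirichletEigenvalue N k Ω}

/-- `Ω` is the union of `k` pairwise disjoint open balls, each of volume `1/k`. -/
def IsEqualBallUnion (N k : ℕ) (Ω : Set (EuclideanSpace ℝ (Fin N))) : Prop :=
  ∃ (q : Fin k → EuclideanSpace ℝ (Fin N)) (r : Fin k → ℝ),
    (∀ i, volume (ball (q i) (r i)) = ENNReal.ofReal (1 / k)) ∧
    (∀ i j, i ≠ j → Disjoint (ball (q i) (r i)) (ball (q j) (r j))) ∧
    Ω = ⋃ i, ball (q i) (r i)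

/-- In every dimension `N ≥ 2` and for every `k ≥ 3`:

* no union of `k` disjoint balls of volume `1/k` minimizes the `k`-th Dirichlet eigenvalue: some
  open set of volume `1` has a strictly smaller `k`-th eigenvalue, and so `λ_k^*` is strictly
  smaller than the `k`-th eigenvalue of the `k` balls;
* consequently `λ_k^* < k^{2/N} λ_1(B)` for every ball `B` of volume `1`;
* more generally, let `Ω₀` (open, of volume `1`) be the union of an open set `U` (nonempty if
  `k > 3`) and three disjoint balls `B` of the same radius, also disjoint from `U`, such that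
  `λ_{k-3}(U) ≤ λ_1(B) ≤ λ_k(Ω₀)`. Then `Ω₀` does not minimize the `k`-th eigenvalue.
  (Here `k = j + 3`.) -/
theorem result (N : ℕ) (hN : 2 ≤ N) :
    (∀ k : ℕ, 3 ≤ k → ∀ Ω₀ : Set (EuclideanSpace ℝ (Fin N)), IsEqualBallUnion N k Ω₀ →
      (∃ Ω : Set (EuclideanSpace ℝ (Fin N)), IsOpen Ω ∧ volume Ω = 1 ∧
        dirichletEigenvalue N k Ω < dirichletEigenvalue N k Ω₀) ∧
      optimalEigenvalue N k < dirichletEigenvalue N k Ω₀) ∧
    (∀ k : ℕ, 3 ≤ k → ∀ (q : EuclideanSpace ℝ (Fin N)) (r : ℝ), volume (ball q r) = 1 →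
      optimalEigenvalue N k < (k : ℝ) ^ (2 / (N : ℝ)) * dirichletEigenvalue N 1 (ball q r)) ∧
    (∀ (j : ℕ) (U : Set (EuclideanSpace ℝ (Fin N))) (p : Fin 3 → EuclideanSpace ℝ (Fin N)) (ρ : ℝ),
      IsOpen U → (1 ≤ j → U.Nonempty) → 0 < ρ →
      (∀ a b, a ≠ b → Disjoint (ball (p a) ρ) (ball (p b) ρ)) →
      (∀ a, Disjoint U (ball (p a) ρ)) →
      volume (U ∪ ⋃ a, ball (p a) ρ) = 1 →
      dirichletEigenvalue N j U ≤ dirichletEigenvalue N 1 (ball (p 0) ρ) →
      dirichletEigenvalue N 1 (ball (p 0) ρ) ≤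
        dirichletEigenvalue N (j + 3) (U ∪ ⋃ a, ball (p a) ρ) →
      (∃ Ω : Set (EuclideanSpace ℝ (Fin N)), IsOpen Ω ∧ volume Ω = 1 ∧
        dirichletEigenvalue N (j + 3) Ω <
          dirichletEigenvalue N (j + 3) (U ∪ ⋃ a, ball (p a) ρ)) ∧
      optimalEigenvalue N (j + 3) <
        dirichletEigenvalue N (j + 3) (U ∪ ⋃ a, ball (p a) ρ)) := by
  refine ⟨?_, ?_, ?_⟩
  · intro k hk Ω₀ h
    obtain ⟨q, r, hv, hd, hΩ⟩ := h
    exact Pool.Agent.Y247.KB.finalA N hN k hk Ω₀ q r hv hd hΩ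
  · intro k hk q r hv
    exact Pool.Agent.Y247.KB.finalB N hN k hk q r hv
  · intro j U p ρ hU hne hρ hd hdU hv h1 h2
    exact Pool.Agent.Y247.KB.finalC N hN j U hU hne p ρ hρ hd hdU hv h1 h2

end Pool.Agent.Results.MP_7d358c_an.EqualBalls
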